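import Mathlib
import Pool.Agent.Lib.MP_abef03_an.Geom
import Pool.Agent.Lib.MP_abef03_an.KAM

/-! Lazutkin's theorem for boundaries of class `C^4`. -/

namespace Pool.Agent.Results.MP_abef03_an.C4Suffices

open Pool.Agent.Lib.MP_abef03_an

/-- Every strictly convex planar domain with `C^4` boundary has property (L). -/
theorem result (T : Table 4) : T.PropertyL := propertyL_of_KAM kam T

end Pool.Agent.Results.MP_abef03_an.C4Suffices
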